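import Pool.Agent.V11181.Cyc5

/-!
# MP_331a15_co: minimum-degree thresholds for a cyclic discrete fundamental group

`δ_cyc(K₃) = 1/3` and `δ_cyc(K_r) = (2r - 4)/(3r - 5)` for every `r ≥ 4`.
-/

set_option autoImplicit false

namespace Pool.Agent.Results.MP_331a15_co.CompleteGraphs

open SimpleGraph Pool.Agent.V11181.Cyc

/-- **Main result.** `deltaCyc H` is the infimum of all `α ≥ 0` such that every finite `H`-free
graph `G` with `δ(G) > α |G|` has cyclic discrete fundamental group.  Its value is `1/3` for the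
triangle and `(2r - 4)/(3r - 5)` for the complete graph on `r ≥ 4` vertices.  The lower bounds
hold for all graphs `H` containing a triangle, and for all graphs `H` which are not
`(r-1)`-colourable, respectively. -/
theorem result :
    deltaCyc (⊤ : SimpleGraph (Fin 3)) = 1 / 3 ∧
    (∀ r : ℕ, 4 ≤ r →
      deltaCyc (⊤ : SimpleGraph (Fin r)) = (2 * (r : ℝ) - 4) / (3 * (r : ℝ) - 5)) ∧
    (∀ (W : Type) (H : SimpleGraph W), ¬ H.CliqueFree 3 → 1 / 3 ≤ deltaCyc H) ∧
    (∀ (W : Type) (H : SimpleGraph W) (r : ℕ), 4 ≤ r → ¬ H.Colorable (r - 1) →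
      (2 * (r : ℝ) - 4) / (3 * (r : ℝ) - 5) ≤ deltaCyc H) := by
  have key : ∀ q : ℕ, (2 * ((q + 4 : ℕ) : ℝ) - 4) / (3 * ((q + 4 : ℕ) : ℝ) - 5) =
      (2 * q + 4) / (3 * q + 7) := by
    intro q
    push_cast
    congr 1 <;> ring
  refine ⟨deltaCyc_three, fun r hr => ?_, fun W H hH => ?_, fun W H r hr hH => ?_⟩
  · obtain ⟨q, rfl⟩ := Nat.exists_eq_add_of_le' hr
    rw [key]
    exact deltaCyc_clique q
  · exact le_deltaCyc H _ (fun α h0 h1 => not_adm_three H hH α h0 h1)
  · obtain ⟨q, rfl⟩ := Nat.exists_eq_add_of_le' hr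
    rw [key]
    exact le_deltaCyc H _ (fun α _ h1 => not_adm_clique H q hH α h1)

end Pool.Agent.Results.MP_331a15_co.CompleteGraphs
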